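import Pool.Agent.Helper63.Sey2.Goals
import Mathlib

/-!
# Project SEY2 (MP_b6b2d3_co), packet NOBAD
-/

set_option autoImplicit false
set_option linter.unusedSectionVars false

namespace Pool.Agent.Helper14.Sey2

open Pool.Agent.Helper63.Sey2 Finset

section

variable {α : Type} [Fintype α]

theorem nc (P : α → Prop) [DecidablePred P] : Nat.card {x // P x} = (univ.filter P).card := by
  rw [Nat.card_eq_fintype_card, Fintype.card_subtype]

end

variable {V : Type} [Fintype V] {H : SimpleGraph V} {q ℓ : ℕ}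

theorem em_congr {S : Set V} {c : Fin q} {φ φ' : V → Option (Fin q)}
    (h : ∀ u ∈ S, φ u = φ' u) : Em S c φ ↔ Em S c φ' := by
  unfold Em
  exact forall₂_congr fun u hu => by rw [h u hu]

theorem bad_congr {i : V} {φ φ' : V → Option (Fin q)} (h1 : ∀ u, H.Adj i u → φ u = φ' u)
    (h2 : ∀ u w, H.Adj i u → H.Adj u w → φ w = φ' w) : Bad H ℓ i φ ↔ Bad H ℓ i φ' := by
  have hE : ∀ c : Fin q, Em {u | H.Adj i u} c φ ↔ Em {u | H.Adj i u} c φ' :=
    fun c => em_congr fun u hu => h1 u hu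
  have hE2 : ∀ (c : Fin q) (u : V), (H.Adj i u ∧ φ u = none ∧ Em {w | H.Adj u w} c φ) ↔
      (H.Adj i u ∧ φ' u = none ∧ Em {w | H.Adj u w} c φ') := by
    intro c u
    refine and_congr_right fun hu => ?_
    rw [h1 u hu]
    refine and_congr_right fun _ => ?_
    exact em_congr fun w hw => h2 u w hu hw
  unfold Bad
  rw [Nat.card_congr (Equiv.subtypeEquivRight hE)]
  refine or_congr Iff.rfl ?_
  refine exists_congr fun c => ?_
  rw [hE c, Nat.card_congr (Equiv.subtypeEquivRight (hE2 c))]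

/-- the inequality for one fibre -/
theorem fibre (hE1 : GoalE1) (hE2 : GoalE2) (k K' M I m Δ : ℕ) (hK' : 1 ≤ K')
    (hΔ : ∀ v, Nat.card {u // H.Adj v u} ≤ Δ)
    (hk : ∀ T : Finset V, (∀ u ∈ T, ∀ v ∈ T, u ≠ v → H.Adj u v) → T.card ≤ k)
    (hΔq : Δ ≤ K' * q) (hM : M = 256 * 4 ^ (4 * K') * (k + 1) ^ (4 * (4 * K') ^ 2))
    (hℓ : 16 * M * ℓ ≤ q) (hI : 1 ≤ I) (hI2 : I * (k + 1) ^ (m * m) * 16 ^ m ≤ ℓ ^ m)
    (v : V) (φ0 : V → Option (Fin q)) :
    (Nat.card {φ : V → Option (Fin q) // (Ok H φ ∧ ∀ u, u ∉ {u | H.Adj v u} → φ u = φ0 u) ∧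
        Bad H ℓ v φ} : ℝ) ≤
      ((1 / 2 : ℝ) ^ q + Real.exp (-((q : ℝ) / (16 * M))) + (q : ℝ) / I) *
        Nat.card {φ : V → Option (Fin q) // Ok H φ ∧ ∀ u, u ∉ {u | H.Adj v u} → φ u = φ0 u} := by
  classical
  have h1 := hE1 V H k K' q M ℓ {u | H.Adj v u} φ0 hK' hk ((hΔ v).trans hΔq) hM hℓ
  have h2 := fun c => hE2 V H k q ℓ I m {u | H.Adj v u} φ0 c hk hI2
  rw [nc] at h1 ⊢
  rw [nc (fun φ : V → Option (Fin q) => Ok H φ ∧ ∀ u, u ∉ {u | H.Adj v u} → φ u = φ0 u)]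
    at h1 ⊢
  set N := (univ.filter fun φ : V → Option (Fin q) =>
    Ok H φ ∧ ∀ u, u ∉ {u | H.Adj v u} → φ u = φ0 u).card with hN
  have hsub : (univ.filter fun φ : V → Option (Fin q) =>
      (Ok H φ ∧ ∀ u, u ∉ {u | H.Adj v u} → φ u = φ0 u) ∧ Bad H ℓ v φ) ⊆
      (univ.filter fun φ : V → Option (Fin q) =>
        (Ok H φ ∧ ∀ u, u ∉ {u | H.Adj v u} → φ u = φ0 u) ∧
          Nat.card {c // Em {u | H.Adj v u} c φ} < ℓ) ∪
      univ.biUnion fun c : Fin q => univ.filter fun φ : V → Option (Fin q) =>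
        (Ok H φ ∧ ∀ u, u ∉ {u | H.Adj v u} → φ u = φ0 u) ∧
          Em {u | H.Adj v u} c φ ∧ ℓ < 16 * (Fr H {u | H.Adj v u} c φ).card := by
    intro φ hφ
    rw [mem_filter] at hφ
    obtain ⟨-, h3, h4⟩ := hφ
    rw [mem_union]
    rcases h4 with h4 | ⟨c, h4, h5⟩
    · left
      rw [mem_filter]
      exact ⟨mem_univ _, h3, h4⟩
    · right
      rw [mem_biUnion]
      refine ⟨c, mem_univ _, ?_⟩
      rw [mem_filter]
      refine ⟨mem_univ _, h3, h4, h5.trans_le ?_⟩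
      refine Nat.mul_le_mul_left 16 ?_
      rw [nc]
      refine Finset.card_le_card ?_
      intro u hu
      rw [mem_filter] at hu
      unfold Fr
      rw [mem_filter]
      exact ⟨mem_univ _, hu.2.1, Or.inl hu.2.2.1, fun w _ hw => hu.2.2.2 w hw⟩
  have hc := (Finset.card_le_card hsub).trans (Finset.card_union_le _ _)
  have hb : (univ.biUnion fun c : Fin q => univ.filter fun φ : V → Option (Fin q) =>
        (Ok H φ ∧ ∀ u, u ∉ {u | H.Adj v u} → φ u = φ0 u) ∧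
          Em {u | H.Adj v u} c φ ∧ ℓ < 16 * (Fr H {u | H.Adj v u} c φ).card).card ≤
      ∑ c : Fin q, (univ.filter fun φ : V → Option (Fin q) =>
        (Ok H φ ∧ ∀ u, u ∉ {u | H.Adj v u} → φ u = φ0 u) ∧
          Em {u | H.Adj v u} c φ ∧ ℓ < 16 * (Fr H {u | H.Adj v u} c φ).card).card :=
    Finset.card_biUnion_le
  have hIpos : (0 : ℝ) < I := by exact_mod_cast hI
  have hs : ((∑ c : Fin q, (univ.filter fun φ : V → Option (Fin q) =>
        (Ok H φ ∧ ∀ u, u ∉ {u | H.Adj v u} → φ u = φ0 u) ∧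
          Em {u | H.Adj v u} c φ ∧ ℓ < 16 * (Fr H {u | H.Adj v u} c φ).card).card : ℕ) : ℝ) ≤
      (q : ℝ) / I * N := by
    rw [Nat.cast_sum]
    have h3 : ∀ c : Fin q, (((univ.filter fun φ : V → Option (Fin q) =>
        (Ok H φ ∧ ∀ u, u ∉ {u | H.Adj v u} → φ u = φ0 u) ∧
          Em {u | H.Adj v u} c φ ∧ ℓ < 16 * (Fr H {u | H.Adj v u} c φ).card).card : ℕ) : ℝ) ≤
        (N : ℝ) / I := by
      intro c
      have h4 := h2 c
      rw [nc, nc] at h4
      rw [le_div_iff₀ hIpos, mul_comm]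
      exact_mod_cast h4
    refine (Finset.sum_le_sum fun c _ => h3 c).trans (le_of_eq ?_)
    rw [Finset.sum_const, Finset.card_univ, Fintype.card_fin, nsmul_eq_mul]
    ring
  have hc' : (((univ.filter fun φ : V → Option (Fin q) =>
      (Ok H φ ∧ ∀ u, u ∉ {u | H.Adj v u} → φ u = φ0 u) ∧ Bad H ℓ v φ).card : ℕ) : ℝ) ≤
      (((univ.filter fun φ : V → Option (Fin q) =>
        (Ok H φ ∧ ∀ u, u ∉ {u | H.Adj v u} → φ u = φ0 u) ∧
          Nat.card {c // Em {u | H.Adj v u} c φ} < ℓ).card : ℕ) : ℝ) +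
      ((∑ c : Fin q, (univ.filter fun φ : V → Option (Fin q) =>
        (Ok H φ ∧ ∀ u, u ∉ {u | H.Adj v u} → φ u = φ0 u) ∧
          Em {u | H.Adj v u} c φ ∧ ℓ < 16 * (Fr H {u | H.Adj v u} c φ).card).card : ℕ) : ℝ) := by
    exact_mod_cast hc.trans (Nat.add_le_add_left hb _)
  calc _ ≤ _ := hc'
    _ ≤ ((1 / 2 : ℝ) ^ q + Real.exp (-((q : ℝ) / (16 * M)))) * N + (q : ℝ) / I * N :=
        add_le_add h1 hs
    _ = _ := by ring

theorem ball_card (Δ : ℕ) (hΔ : ∀ v, Nat.card {u // H.Adj v u} ≤ Δ) (v : V) (Γ : Finset V)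
    (hΓ : ∀ w ∈ Γ, w = v ∨ ∃ x, H.Adj v x ∧ (w = x ∨ H.Adj w x ∨ ∃ y, H.Adj w y ∧ H.Adj y x)) :
    Γ.card ≤ (Δ + 1) ^ 3 := by
  classical
  let N : V → Finset V := fun v => univ.filter fun u => H.Adj v u
  have hN : ∀ v, (N v).card ≤ Δ := by
    intro v
    have h := hΔ v
    rw [nc] at h
    exact h
  have hsub : Γ ⊆ {v} ∪ (N v ∪ ((N v).biUnion N ∪ ((N v).biUnion N).biUnion N)) := by
    intro w hw
    rw [mem_union, mem_union, mem_union]
    rcases hΓ w hw with h | ⟨x, hx, h | h | ⟨y, h, h'⟩⟩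
    · exact Or.inl (mem_singleton.2 h)
    · subst h
      exact Or.inr (Or.inl (mem_filter.2 ⟨mem_univ _, hx⟩))
    · refine Or.inr (Or.inr (Or.inl (mem_biUnion.2 ⟨x, mem_filter.2 ⟨mem_univ _, hx⟩, ?_⟩)))
      exact mem_filter.2 ⟨mem_univ _, h.symm⟩
    · refine Or.inr (Or.inr (Or.inr (mem_biUnion.2 ⟨y, ?_, ?_⟩)))
      · exact mem_biUnion.2 ⟨x, mem_filter.2 ⟨mem_univ _, hx⟩,
          mem_filter.2 ⟨mem_univ _, h'.symm⟩⟩
      · exact mem_filter.2 ⟨mem_univ _, h.symm⟩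
  have h1 : (N v).card ≤ Δ := hN v
  have h2 : ((N v).biUnion N).card ≤ Δ * Δ :=
    (Finset.card_biUnion_le_card_mul _ _ Δ fun x _ => hN x).trans (Nat.mul_le_mul_right Δ h1)
  have h3 : (((N v).biUnion N).biUnion N).card ≤ Δ * Δ * Δ :=
    (Finset.card_biUnion_le_card_mul _ _ Δ fun x _ => hN x).trans (Nat.mul_le_mul_right Δ h2)
  have h4 := Finset.card_le_card hsub
  have h5 := Finset.card_union_le ({v} : Finset V)
    (N v ∪ ((N v).biUnion N ∪ ((N v).biUnion N).biUnion N))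
  have h6 := Finset.card_union_le (N v) ((N v).biUnion N ∪ ((N v).biUnion N).biUnion N)
  have h7 := Finset.card_union_le ((N v).biUnion N) (((N v).biUnion N).biUnion N)
  rw [Finset.card_singleton] at h5
  have h8 : (Δ + 1) ^ 3 = Δ * Δ * Δ + 3 * (Δ * Δ) + 3 * Δ + 1 := by ring
  rw [h8]
  omega

theorem goalNOBAD : GoalE1 → GoalE2 → GoalLLLC → GoalNOBAD := by
  classical
  intro hE1 hE2 hL V _ H k K' q M ℓ I m Δ hK' hΔ hk hΔq hM hℓ hI hI2 h4
  set p : ℝ := (1 / 2 : ℝ) ^ q + Real.exp (-((q : ℝ) / (16 * M))) + (q : ℝ) / I with hp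
  have hp0 : 0 ≤ p := by positivity
  have : Nonempty {φ : V → Option (Fin q) // Ok H φ} :=
    ⟨⟨fun _ => none, fun u v c _ h => by simp at h⟩⟩
  let Γ : V → Finset V := fun v => univ.filter fun w =>
    w = v ∨ ∃ x, H.Adj v x ∧ (w = x ∨ H.Adj w x ∨ ∃ y, H.Adj w y ∧ H.Adj y x)
  obtain ⟨ω, hω⟩ := hL {φ : V → Option (Fin q) // Ok H φ} V (fun v ω => Bad H ℓ v ω.1) Γ p
    ((Δ + 1) ^ 3) hp0 (Nat.one_le_iff_ne_zero.2 (by positivity)) (by
      push_cast
      exact h4) (fun v => ball_card Δ hΔ v (Γ v) fun w hw => (mem_filter.1 hw).2) (by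
    intro j T hT
    set S : Set V := {u | H.Adj j u} with hS
    -- the events in `T` do not depend on the colours in `S`
    have hdep : ∀ φ φ' : V → Option (Fin q), (∀ u, u ∉ S → φ u = φ' u) → ∀ i ∈ T,
        (Bad H ℓ i φ ↔ Bad H ℓ i φ') := by
      intro φ φ' hφ i hi
      have hi' : i ∉ Γ j := Finset.disjoint_left.1 hT hi
      have hi2 : ¬ (i = j ∨ ∃ x, H.Adj j x ∧ (i = x ∨ H.Adj i x ∨
          ∃ y, H.Adj i y ∧ H.Adj y x)) := fun h => hi' (mem_filter.2 ⟨mem_univ _, h⟩)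
      refine bad_congr ?_ ?_
      · intro u hu
        refine hφ u fun hSu => hi2 (Or.inr ⟨u, hSu, Or.inr (Or.inl hu)⟩)
      · intro u w hu hw
        refine hφ w fun hSw => hi2 (Or.inr ⟨w, hSw, Or.inr (Or.inr ⟨u, hu, hw⟩)⟩)
    rw [nc, nc]
    let R : {φ : V → Option (Fin q) // Ok H φ} → (V → Option (Fin q)) :=
      fun ω u => if u ∈ S then none else ω.1 u
    have hR : ∀ ω ω' : {φ : V → Option (Fin q) // Ok H φ}, R ω = R ω' ↔
        ∀ u, u ∉ S → ω.1 u = ω'.1 u := by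
      intro ω ω'
      constructor
      · intro h u hu
        have h1 := congrFun h u
        simp only [R, if_neg hu] at h1
        exact h1
      · intro h
        funext u
        by_cases hu : u ∈ S
        · simp only [R, if_pos hu]
        · simp only [R, if_neg hu]
          exact h u hu
    set S1 := univ.filter fun ω : {φ : V → Option (Fin q) // Ok H φ} =>
      Bad H ℓ j ω.1 ∧ ∀ i ∈ T, ¬ Bad H ℓ i ω.1 with hS1
    set S2 := univ.filter fun ω : {φ : V → Option (Fin q) // Ok H φ} =>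
      ∀ i ∈ T, ¬ Bad H ℓ i ω.1 with hS2
    have e1 : S1.card = ∑ r : V → Option (Fin q), (S1.filter fun ω => R ω = r).card :=
      Finset.card_eq_sum_card_fiberwise fun ω _ => mem_univ _
    have e2 : S2.card = ∑ r : V → Option (Fin q), (S2.filter fun ω => R ω = r).card :=
      Finset.card_eq_sum_card_fiberwise fun ω _ => mem_univ _
    rw [e1, e2, Nat.cast_sum, Nat.cast_sum, Finset.mul_sum]
    refine Finset.sum_le_sum fun r _ => ?_
    rcases (S2.filter fun ω => R ω = r).eq_empty_or_nonempty with h0 | ⟨ω0, hω0⟩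
    · have h1 : (S1.filter fun ω => R ω = r) = ∅ := by
        rw [Finset.eq_empty_iff_forall_notMem] at h0 ⊢
        intro ω hω
        rw [mem_filter, hS1, mem_filter] at hω
        refine h0 ω ?_
        rw [mem_filter, hS2, mem_filter]
        exact ⟨⟨mem_univ _, hω.1.2.2⟩, hω.2⟩
      rw [h0, h1]
      simp
    · rw [mem_filter, hS2, mem_filter] at hω0
      obtain ⟨⟨-, hT0⟩, hr⟩ := hω0
      have hf := fibre hE1 hE2 k K' M I m Δ hK' hΔ hk hΔq hM hℓ hI hI2 j ω0.1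
      rw [nc, nc] at hf
      have c1 : (S1.filter fun ω => R ω = r).card ≤
          (univ.filter fun φ : V → Option (Fin q) =>
            (Ok H φ ∧ ∀ u, u ∉ {u | H.Adj j u} → φ u = ω0.1 u) ∧ Bad H ℓ j φ).card := by
        refine Finset.card_le_card_of_injOn (fun ω => ω.1) ?_ ?_
        · intro ω hω
          rw [Finset.mem_coe, mem_filter, hS1, mem_filter] at hω
          rw [Finset.mem_coe, mem_filter]
          exact ⟨mem_univ _, ⟨ω.2, (hR ω ω0).1 (hω.2.trans hr.symm)⟩, hω.1.2.1⟩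
        · intro ω _ ω' _ h
          exact Subtype.ext h
      have c2 : (univ.filter fun φ : V → Option (Fin q) =>
            Ok H φ ∧ ∀ u, u ∉ {u | H.Adj j u} → φ u = ω0.1 u).card ≤
          (S2.filter fun ω => R ω = r).card := by
        refine Finset.card_le_card_of_surjOn (fun ω => ω.1) ?_
        intro φ hφ
        rw [Finset.mem_coe, mem_filter] at hφ
        obtain ⟨-, ho, ha⟩ := hφ
        refine ⟨⟨φ, ho⟩, ?_, rfl⟩
        rw [Finset.mem_coe, mem_filter, hS2, mem_filter]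
        refine ⟨⟨mem_univ _, ?_⟩, ?_⟩
        · intro i hi hB
          exact hT0 i hi ((hdep φ ω0.1 ha i hi).1 hB)
        · rw [← hr]
          exact (hR ⟨φ, ho⟩ ω0).2 ha
      have c1' : (((S1.filter fun ω => R ω = r).card : ℕ) : ℝ) ≤ _ := Nat.cast_le.2 c1
      refine c1'.trans (hf.trans ?_)
      refine mul_le_mul_of_nonneg_left (Nat.cast_le.2 c2) hp0)
  exact ⟨ω.1, ω.2, hω⟩

end Pool.Agent.Helper14.Sey2
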